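import Pool.Agent.R189.NC.Step
import Pool.Agent.TH382.QC.Torus

/-!
# Affine extensions with nilmanifolds as fibres
-/

set_option autoImplicit false
set_option linter.unusedSectionVars false

open scoped Manifold ContDiff Topology
open Filter Set Metric

universe u

namespace Pool.Agent.R189.NC

open Pool.Agent.H718R2.G Pool.Agent.W564.SC Pool.Agent.TH382.QC

/-- All points of the orbit are of the same kind. -/
theorem nilPt_orbit {n : ℕ} {N : Type u} [TopologicalSpace N] [ChartedSpace (V n) N]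
    {G : Type} [Group G] [TopologicalSpace G] [IsTopologicalGroup G] {d : ℕ} {ι : G →* Md d}
    {O : Set N} {act : G → N → N} (hact : IsNilAction n N ι O act) {y : N} (hyO : y ∈ O)
    (h : IsNilPt ι act y) (a : G) : IsNilPt ι act (act a y) := by
  have hst : ∀ g, act g (act a y) = act a y ↔ act (a⁻¹ * g * a) y = y := by
    intro g
    constructor
    · intro e
      rw [mul_assoc, hact.mul _ _ y hyO, hact.mul _ _ y hyO, e, ← hact.mul _ _ y hyO,
        inv_mul_cancel, hact.one y hyO]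
    · intro e
      have h1 : act a (act (a⁻¹ * g * a) y) = act a y := by rw [e]
      rw [← hact.mul _ _ y hyO, mul_assoc, mul_inv_cancel_left, hact.mul _ _ y hyO] at h1
      exact h1
  refine ⟨?_, ?_, ?_⟩
  · have h1 : Subgroup.map (MulAut.conj a).toMonoidHom
        (Subgroup.closure {g | ∃ c : ℝ → G, IsOne ι c ∧ act (c 1) y = y ∧ ∃ t, c t = g}) ≤
        Subgroup.closure {g | ∃ c : ℝ → G, IsOne ι c ∧ act (c 1) (act a y) = act a y ∧
          ∃ t, c t = g} := by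
      rw [MonoidHom.map_closure, Subgroup.closure_le]
      rintro _ ⟨g, ⟨c, hc, hc1, t, ht⟩, rfl⟩
      refine Subgroup.subset_closure ⟨fun t => a * c t * a⁻¹, ?_, ?_, t, ?_⟩
      · refine ⟨fun i j => ?_, fun s t => ?_⟩
        · have e : (fun t => ι (a * c t * a⁻¹) i j) =
              fun t => ∑ l, (∑ k, ι a i k * ι (c t) k l) * ι a⁻¹ l j := by
            funext t
            rw [map_mul, map_mul, Matrix.mul_apply]
            refine Finset.sum_congr rfl fun l _ => ?_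
            rw [Matrix.mul_apply]
          rw [e]
          refine ContDiff.sum fun l _ => ?_
          refine ContDiff.mul ?_ contDiff_const
          exact ContDiff.sum fun k _ => contDiff_const.mul (hc.smooth k l)
        · show a * c (s + t) * a⁻¹ = a * c s * a⁻¹ * (a * c t * a⁻¹)
          rw [hc.add]
          group
      · rw [hst]
        have e : a⁻¹ * (a * c 1 * a⁻¹) * a = c 1 := by group
        rw [e]
        exact hc1
      · rw [← ht]
        rfl
    rw [h.gen] at h1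
    rw [eq_top_iff]
    intro g _
    exact h1 ⟨a⁻¹ * g * a, Subgroup.mem_top _, by
      show a * (a⁻¹ * g * a) * a⁻¹ = g
      group⟩
  · obtain ⟨u, ⟨D, hD, hden⟩, ⟨q, hq, hcong⟩⟩ := h.arith
    have e : ∀ g, (a * u)⁻¹ * g * (a * u) = u⁻¹ * (a⁻¹ * g * a) * u := fun g => by group
    refine ⟨a * u, ⟨D, hD, fun g hg => ?_⟩, ⟨q, hq, fun g hg => ?_⟩⟩
    · rw [e]
      exact hden _ ((hst g).1 hg)
    · rw [e] at hg
      exact (hst g).2 (hcong _ hg)
  · obtain ⟨K, hK, hKy⟩ := h.cocompact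
    refine ⟨(fun k => k * a⁻¹) '' K, hK.image (continuous_mul_const _), fun g => ?_⟩
    obtain ⟨k, hk, hgk⟩ := hKy (g * a)
    refine ⟨k * a⁻¹, ⟨k, hk, rfl⟩, ?_⟩
    rw [← hact.mul _ _ y hyO, hgk, ← hact.mul _ _ y hyO, inv_mul_cancel_right]

/-- `f (g y) = φ(g) f(y)` -/
def Equi {G : Type} [Group G] {N : Type u} (ρ : G → N → N) (φ : G →* G) (f : N → N) : Prop :=
  ∀ (g : G) (y : N), f (ρ g y) = ρ (φ g) (f y)

/-- `F y = A(y) · F₀(y)`, where `A` is invariant under the action `ρ` and `F₀ (g y) = φ(g) F₀(y)`. -/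
structure IsSkew {G : Type} [Group G] {N : Type u} (ρ : G → N → N) (φ : G →* G) (A : N → G)
    (F₀ F : N → N) : Prop where
  inv : ∀ g y, A (ρ g y) = A y
  equi : Equi ρ φ F₀
  eq : ∀ y, F y = ρ (A y) (F₀ y)

/-- Every neighbourhood of `F₀` in `Diff^r(N)` contains some `H` with `H (g y) = φ(g) H(y)` for which
the `G`-orbit of `z` is periodic. -/
def BaseClosable (n : ℕ) (N : Type u) [TopologicalSpace N] [ChartedSpace (V n) N] (r : ℕ∞)
    {G : Type} [Group G] (ρ : G → N → N) (φ : G →* G) (F₀ : DiffM n N r) (z : N) : Prop :=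
  ∀ U : Set (DiffM n N r), IsOpen[strongTop n N r] U → F₀ ∈ U →
    ∃ H ∈ U, Equi ρ φ H ∧ ∃ q : ℕ, 1 ≤ q ∧ ∃ k, H^[q] z = ρ k z

/-- iterates of an endomorphism -/
def itH {G : Type} [Group G] (φ : G →* G) : ℕ → (G →* G)
  | 0 => MonoidHom.id G
  | i + 1 => φ.comp (itH φ i)

section alg

variable {G : Type} [Group G] [TopologicalSpace G] {d : ℕ} {ι : G →* Md d} {N : Type u}
  {ρ : G → N → N} {φ : G →* G} (h1 : ∀ y, ρ 1 y = y) (hm : ∀ g h y, ρ (g * h) y = ρ g (ρ h y))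

include hm in
theorem equi_iter {f : N → N} (hf : Equi ρ φ f) (i : ℕ) (g : G) (y : N) :
    f^[i] (ρ g y) = ρ (itH φ i g) (f^[i] y) := by
  induction i with
  | zero => rfl
  | succ i ih => rw [Function.iterate_succ_apply', ih, hf, Function.iterate_succ_apply']; rfl

include h1 hm in
theorem skew_iter {A : N → G} {F₀ F : N → N} (h : IsSkew ρ φ A F₀ F) (z : N) (i : ℕ) :
    ∃ p : G, ∀ g, F^[i] (ρ g z) = ρ (p * itH φ i g) (F₀^[i] z) := by
  induction i with
  | zero => exact ⟨1, fun g => by rw [one_mul]; rfl⟩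
  | succ i ih =>
    obtain ⟨p, hp⟩ := ih
    refine ⟨A (F₀^[i] z) * φ p, fun g => ?_⟩
    rw [Function.iterate_succ_apply', hp, h.eq, h.inv, h.equi, ← hm, Function.iterate_succ_apply',
      map_mul, mul_assoc]
    rfl

include h1 hm in
/-- a skew product over a map for which the orbit of `z` is periodic -/
theorem skew_per {n : ℕ} [TopologicalSpace N] [ChartedSpace (V n) N] [IsTopologicalGroup G]
    (hρ : IsNilAction n N ι univ ρ) {A : N → G} {F₀ F : N → N} (h : IsSkew ρ φ A F₀ F) {z : N}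
    (hz : IsNilPt ι ρ z) (hper : ∃ q : ℕ, 1 ≤ q ∧ ∃ k, F₀^[q] z = ρ k z) :
    IsNilPer n N F z := by
  classical
  obtain ⟨m, hmdef⟩ : ∃ m, m = Nat.find hper := ⟨_, rfl⟩
  obtain ⟨hm1, k, hk⟩ : 1 ≤ m ∧ ∃ k, F₀^[m] z = ρ k z := by
    rw [hmdef]
    exact Nat.find_spec hper
  have hmin : ∀ i, 1 ≤ i → i < m → ∀ k, F₀^[i] z ≠ ρ k z := by
    intro i hi him k hik
    rw [hmdef] at him
    exact Nat.find_min hper him ⟨hi, k, hik⟩
  obtain ⟨p, hp⟩ := skew_iter h1 hm h z m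
  refine ⟨G, inferInstance, inferInstance, inferInstance, d, ι, univ, ρ, hρ, mem_univ _, hz, m, hm1,
    ⟨p * k, (MulAut.conj k⁻¹).toMonoidHom.comp (itH φ m), fun g => ?_⟩, fun i hi him g g' hc => ?_⟩
  · rw [hp, hk, ← hm]
    congr 1
    show p * itH φ m g * k = p * k * (k⁻¹ * itH φ m g * k⁻¹⁻¹)
    group
  · obtain ⟨p', hp'⟩ := skew_iter h1 hm h z i
    rw [hp'] at hc
    refine hmin i hi him ((p' * itH φ i g)⁻¹ * g') ?_
    rw [hm, ← hc, ← hm, inv_mul_cancel, h1]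

end alg

variable {n : ℕ} {N : Type u} [TopologicalSpace N] [T2Space N] [CompactSpace N]
  [ChartedSpace (V n) N] [IsManifold (𝓡 n) ∞ N] {r : ℕ∞}
  {G : Type} [Group G] [TopologicalSpace G] [IsTopologicalGroup G] {d : ℕ} {ι : G →* Md d}
  {ρ : G → N → N} {φ : G →* G}

theorem skew_diff {A : N → G} {F₀ F F₁ : DiffM n N r} (h : IsSkew ρ φ A F₀ F)
    (h1 : Equi ρ φ F₁) :
    IsSkew ρ φ (fun y => A (F₀.symm (F₁ y))) F₁ ((F₁.trans F₀.symm).trans F) where
  inv g y := by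
    have h2 : F₀.symm (F₁ (ρ g y)) = ρ g (F₀.symm (F₁ y)) := by
      rw [h1]
      apply F₀.injective
      show F₀ (F₀.symm (ρ (φ g) (F₁ y))) = F₀ (ρ g (F₀.symm (F₁ y)))
      rw [F₀.apply_symm_apply, h.equi, F₀.apply_symm_apply]
    show A (F₀.symm (F₁ (ρ g y))) = A (F₀.symm (F₁ y))
    rw [h2, h.inv]
  equi := h1
  eq y := by
    show F (F₀.symm (F₁ y)) = _
    rw [h.eq, F₀.apply_symm_apply]

/-- Affine extensions of maps which can be closed. -/
theorem extension (hρ : IsNilAction n N ι univ ρ) {A : N → G} (F₀ F : DiffM n N r)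
    (h : IsSkew ρ φ A F₀ F) (z : N) (hz : IsNilPt ι ρ z) (hc : BaseClosable n N r ρ φ F₀ z) :
    ClosableAt n N r F z := by
  have hcomp : S_COMP := Pool.Agent.W917.SC.comp
  obtain ⟨H, hH, hcv⟩ := Cv.exists_seq hcomp F₀
    (fun H => Equi ρ φ H ∧ ∃ q : ℕ, 1 ≤ q ∧ ∃ k, H^[q] z = ρ k z) hc
  refine main F z fun U hU hFU => ?_
  have c1 := Cv.trans hcomp (Cv.trans hcomp hcv (Cv.const F₀.symm)) (Cv.const F)
  have e : (F₀.trans F₀.symm).trans F = F := by
    ext y
    show F (F₀.symm (F₀ y)) = F y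
    rw [F₀.symm_apply_apply]
  rw [e] at c1
  obtain ⟨m, hm⟩ := (c1.mem hU hFU).exists
  exact ⟨_, hm, subset_closure (skew_per (fun y => hρ.one y (mem_univ _))
    (fun g h y => hρ.mul g h y (mem_univ _)) hρ (skew_diff h (hH m).1) hz (hH m).2)⟩

/-- Quasi-periodic affine cocycles, for example
`F (x, g Γ) = (x + α, A(x) φ(g) Γ)` on `𝕋ᵉ × G / Γ`. -/
theorem quasiperiodic {e : ℕ} (hρ : IsNilAction n N ι univ ρ) {R : V e → N → N}
    (hR : IsTorusAct e n N R) (hRρ : ∀ a g y, R a (ρ g y) = ρ g (R a y)) (α : V e)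
    (Φ : DiffM n N r) (hΦ : Equi ρ φ Φ) (hΦR : ∀ a y, Φ (R a y) = R a (Φ y)) {A : N → G}
    (hA : ∀ g y, A (ρ g y) = A y) (F : DiffM n N r) (hF : ∀ y, F y = ρ (A y) (R α (Φ y)))
    (z : N) (hz : IsNilPt ι ρ z) (hΦz : ∃ k, Φ z = ρ k z) : ClosableAt n N r F z := by
  have hρ1 : ∀ y, ρ 1 y = y := fun y => hρ.one y (mem_univ _)
  have hρm : ∀ g h y, ρ (g * h) y = ρ g (ρ h y) := fun g h y => hρ.mul g h y (mem_univ _)
  obtain ⟨H, hfam, hH⟩ := tor_fam hR r α
  have hE : ∀ s, Equi ρ φ (Φ.trans (H s)) := by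
    intro s g y
    show H s (Φ (ρ g y)) = ρ (φ g) (H s (Φ y))
    rw [hH, hH, hΦ, hRρ]
  refine extension hρ (Φ.trans (H 0)) F (A := A) (φ := φ) ⟨hA, hE 0, fun y => ?_⟩ z hz ?_
  · show F y = ρ (A y) (H 0 (Φ y))
    rw [hH, add_zero, hF]
  · intro U hU hU0
    obtain ⟨a, ha, hint⟩ := rat_approx α
    have hcv := Cv.fam Pool.Agent.W917.SC.comp (fam_trans Φ hfam) ha
    obtain ⟨k, hk⟩ := (hcv.mem hU hU0).exists
    refine ⟨_, hk, hE _, k + 1, by omega, ?_⟩
    have e1 : ∀ (i : ℕ) (y : N), (Φ.trans (H (a k)))^[i] y = R (i • (α + a k)) (Φ^[i] y) := by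
      intro i y
      induction i with
      | zero =>
        rw [zero_smul, hR.zero]
        rfl
      | succ i ih =>
        rw [Function.iterate_succ_apply', ih]
        show H (a k) (Φ (R (i • (α + a k)) (Φ^[i] y))) = _
        rw [hH, hΦR, ← hR.add, Function.iterate_succ_apply', succ_nsmul']
    have e2 : ∀ i : ℕ, ∃ b, Φ^[i] z = ρ b z := by
      intro i
      induction i with
      | zero => exact ⟨1, (hρ1 z).symm⟩
      | succ i ih =>
        obtain ⟨b, hb⟩ := ih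
        obtain ⟨c, hc⟩ := hΦz
        exact ⟨φ b * c, by rw [Function.iterate_succ_apply', hb, hΦ, hc, ← hρm]⟩
    obtain ⟨b, hb⟩ := e2 (k + 1)
    exact ⟨b, by rw [e1, hR.int _ (hint k), hb]⟩

end Pool.Agent.R189.NC
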