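import Pool.Agent.R189.NC.Defs
import Pool.Agent.TH382.HS.Fam
import Pool.Agent.TH382.HS.Limit

/-!
# Perturbations along one parameter subgroups, and the closing lemma on periodic nilmanifolds
-/

set_option autoImplicit false
set_option linter.unusedSectionVars false

open scoped Manifold ContDiff Topology NNReal
open Filter Set Metric

universe u

namespace Pool.Agent.R189.NC

open Pool.Agent.H718R2.G Pool.Agent.W564.SC Pool.Agent.TH382.QC Pool.Agent.TH80.CLX
  Pool.Agent.TH382.HS

variable {n : ℕ} {N : Type u} [TopologicalSpace N] [T2Space N] [CompactSpace N]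
  [ChartedSpace (V n) N] [IsManifold (𝓡 n) ∞ N] {r : ℕ∞}
  {G : Type} [Group G] [TopologicalSpace G] {d : ℕ} {ι : G →* Md d}

theorem act_cont {O : Set N} {act : G → N → N} (hact : IsNilAction n N ι O act) {y : N}
    (hyO : y ∈ O) : Continuous (fun a : G => act a y) := by
  have h1 : ContinuousOn (fun a : G => act a y) univ :=
    hact.cont.comp (f := fun a : G => ((a, y) : G × N)) (by fun_prop)
      (fun a _ => ⟨mem_univ _, hyO⟩)
  exact continuousOn_univ.1 h1

/-- composition of a diffeomorphism with a family -/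
theorem fam_trans {j : ℕ} (F : DiffM n N r) {P : V j → DiffM n N r} (hP : IsFam n N r P) :
    IsFam n N r (fun s => F.trans (P s)) := by
  intro y
  have h1 : ContMDiffAt ((𝓡 j).prod (𝓡 n)) (𝓡 n) r (fun q : V j × N => P q.1 q.2)
      ((0 : V j), F y) := hP (F y)
  have h2 : ContMDiffAt ((𝓡 j).prod (𝓡 n)) ((𝓡 j).prod (𝓡 n)) r
      (fun q : V j × N => ((q.1, F q.2) : V j × N)) ((0 : V j), y) :=
    (contMDiff_fst.prodMk (F.contMDiff.comp contMDiff_snd)).contMDiffAt
  exact ContMDiffAt.comp (g := fun q : V j × N => P q.1 q.2)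
    (f := fun q : V j × N => ((q.1, F q.2) : V j × N)) ((0 : V j), y) h1 h2

/-- perturbations of `F` along a one parameter subgroup of `G` -/
theorem pert {O : Set N} {act : G → N → N} (hact : IsNilAction n N ι O act) {y : N}
    (hyO : y ∈ O) (hcoc : ∃ K : Set G, IsCompact K ∧ ∀ g, ∃ k ∈ K, act g y = act k y)
    (F : DiffM n N r) {m : ℕ} (hm : 1 ≤ m)
    (hdis : ∀ i, 1 ≤ i → i < m → ∀ g g', F^[i] (act g y) ≠ act g' y)
    {c : ℝ → G} (hc : IsOne ι c) :
    ∃ (H : V 1 → DiffM n N r) (ε : ℝ), 0 < ε ∧ H 0 = F ∧ IsFam n N r H ∧ ∀ t, ‖t‖ < ε →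
      ∀ (a : G), (∀ i < m, (H t)^[i] (act a y) = F^[i] (act a y)) ∧
        ∀ b : G, F^[m] (act a y) = act b y → (H t)^[m] (act a y) = act (c (t 0) * b) y := by
  classical
  have hc0 := one_zero hc.add
  obtain ⟨K, hK, hKy⟩ := hcoc
  have hcy := act_cont hact hyO
  -- the orbit
  obtain ⟨C, hC⟩ : ∃ C : Set N, C = (fun a : G => act a y) '' K := ⟨_, rfl⟩
  have hCc : IsCompact C := by
    rw [hC]
    exact hK.image hcy
  have hCmem : ∀ a : G, act a y ∈ C := by
    intro a
    obtain ⟨b, hb, hab⟩ := hKy a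
    rw [hC]
    exact ⟨b, hb, hab.symm⟩
  have hCmem' : ∀ w ∈ C, ∃ a : G, act a y = w := by
    intro w hw
    rw [hC] at hw
    obtain ⟨a, -, ha⟩ := hw
    exact ⟨a, ha⟩
  have hCO : C ⊆ O := by
    intro w hw
    obtain ⟨a, ha⟩ := hCmem' w hw
    rw [← ha]
    exact hact.maps a y hyO
  obtain ⟨C0, hC0⟩ : ∃ C0 : Set N, C0 = ⋃ i ∈ Finset.Ico 1 m, F^[i] '' C := ⟨_, rfl⟩
  have hFc : ∀ i : ℕ, Continuous (F^[i]) := fun i => F.continuous.iterate i
  have hC0c : IsClosed C0 := by
    rw [hC0]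
    exact isClosed_biUnion_finset fun i _ => (hCc.image (hFc i)).isClosed
  have hdisj0 : Disjoint C0 C := by
    rw [Set.disjoint_left]
    intro w hw1 hw2
    rw [hC0] at hw1
    simp only [mem_iUnion, Finset.mem_Ico] at hw1
    obtain ⟨i, ⟨hi1, hi2⟩, v, hv, hvw⟩ := hw1
    obtain ⟨a, ha⟩ := hCmem' v hv
    obtain ⟨b, hb⟩ := hCmem' w hw2
    apply hdis i hi1 hi2 a b
    rw [ha, hvw, hb]
  -- a compact neighbourhood of the orbit
  obtain ⟨O₁, hO₁, hCO₁, hO₁O, hO₁c⟩ := exists_open_between_and_isCompact_closure hCc hact.isOpen hCO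
  have hD : IsClosed (C0 ∪ O₁ᶜ) := hC0c.union hO₁.isClosed_compl
  have hdisj : Disjoint (C0 ∪ O₁ᶜ) C := by
    rw [Set.disjoint_union_left]
    exact ⟨hdisj0, Set.disjoint_left.2 fun w hw hwC => hw (hCO₁ hwC)⟩
  obtain ⟨f, hf0, hf1, -⟩ := exists_contMDiffMap_zero_one_of_isClosed (n := ⊤) (𝓡 n) hD
    hCc.isClosed hdisj
  have hρ : ContMDiff (𝓡 n) 𝓘(ℝ, ℝ) ∞ (f : N → ℝ) := f.contMDiff
  have hρ0 : ∀ w ∈ O, w ∉ closure O₁ → f w = 0 := by
    intro w _ hwK
    exact hf0 (Or.inr fun h1 => hwK (subset_closure h1))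
  have hA : LAct 1 n N O (fun t w => act (c (t 0)) w) :=
    { isOpen := hact.isOpen
      maps := fun t w hw => hact.maps _ w hw
      smooth := hact.smooth 1 (fun t => c (t 0)) (fun a b => by
        have h1 : ContDiff ℝ ∞ (fun t : V 1 => t 0) :=
          (EuclideanSpace.proj (𝕜 := ℝ) (0 : Fin 1)).contDiff
        exact (hc.smooth a b).comp h1)
      zero := fun w hw => by
        show act (c ((0 : V 1) 0)) w = w
        have e : ((0 : V 1) 0 : ℝ) = 0 := rfl
        rw [e, hc0, hact.one w hw]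
      add := fun t t' w hw => by
        show act (c ((t + t') 0)) w = act (c (t 0)) (act (c (t' 0)) w)
        have e : ((t + t') 0 : ℝ) = t 0 + t' 0 := rfl
        rw [e, hc.add, hact.mul _ _ w hw] }
  obtain ⟨P, ε, hε, hP0, hPfam, hP⟩ := lact_fam' hA hρ (closure O₁) hO₁c isClosed_closure hO₁O hρ0 r
    (Diffeomorph.refl (𝓡 n) N r)
  refine ⟨fun t => F.trans (P t), ε, hε, ?_, fam_trans F hPfam, ?_⟩
  · ext w
    show P 0 (F w) = F w
    rw [hP0]
    rfl
  intro t ht a
  have hPs : ∀ w, P t w = if w ∈ O then act (c ((f w • t) 0)) w else w := hP t ht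
  have hP1 : ∀ b : G, P t (act b y) = act (c (t 0) * b) y := by
    intro b
    have h2 : f (act b y) = 1 := hf1 (hCmem b)
    rw [hPs, if_pos (hCO (hCmem b)), h2, one_smul, ← hact.mul _ _ y hyO]
  have hP2 : ∀ w ∈ C0, P t w = w := by
    intro w hw
    have h2 : f w = 0 := hf0 (Or.inl hw)
    rw [hPs]
    by_cases hO : w ∈ O
    · rw [if_pos hO, h2, zero_smul]
      have e : ((0 : V 1) 0 : ℝ) = 0 := rfl
      rw [e, hc0, hact.one _ hO]
    · rw [if_neg hO]
  have h1 : ∀ i < m, (F.trans (P t))^[i] (act a y) = F^[i] (act a y) := by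
    intro i
    induction i with
    | zero => intro _; rfl
    | succ i ih =>
      intro hi
      rw [Function.iterate_succ_apply', ih (by omega)]
      show P t (F (F^[i] (act a y))) = _
      rw [← Function.iterate_succ_apply' F]
      apply hP2
      rw [hC0]
      simp only [mem_iUnion, Finset.mem_Ico]
      exact ⟨i + 1, ⟨by omega, hi⟩, _, hCmem a, rfl⟩
  refine ⟨h1, fun b hb => ?_⟩
  obtain ⟨l, hl⟩ : ∃ l, m = l + 1 := ⟨m - 1, by omega⟩
  have h2 : F (F^[l] (act a y)) = act b y := by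
    rw [← hb, hl]
    exact (Function.iterate_succ_apply' F l _).symm
  show (F.trans (P t))^[m] (act a y) = _
  rw [hl, Function.iterate_succ_apply', h1 l (by omega)]
  show P t (F (F^[l] (act a y))) = _
  rw [h2, hP1]

/-- All `F` whose return map to the orbit of `y` is `g y ↦ h φ(g) y` can be closed at `y`. -/
def PP (n : ℕ) {N : Type u} [TopologicalSpace N] [ChartedSpace (V n) N] (r : ℕ∞)
    (act : G → N → N) (y : N) (m : ℕ) (φ : G →* G) (h : G) : Prop :=
  ∀ F : DiffM n N r, (∀ g, F^[m] (act g y) = act (h * φ g) y) →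
    (∀ i, 1 ≤ i → i < m → ∀ g g', F^[i] (act g y) ≠ act g' y) → ClosableAt n N r F y

/-- Limits along one parameter subgroups. -/
theorem pp_limit {O : Set N} {act : G → N → N} (hact : IsNilAction n N ι O act) {y : N}
    (hyO : y ∈ O) (hcoc : ∃ K : Set G, IsCompact K ∧ ∀ g, ∃ k ∈ K, act g y = act k y)
    {m : ℕ} (hm : 1 ≤ m) {h : G} {φ : G →* G} {c : ℝ → G} (hc : IsOne ι c)
    (s : ℕ → ℝ) (hs : Tendsto s atTop (𝓝 0)) (hP : ∀ i, PP n r act y m φ (c (s i) * h)) :
    PP n r act y m φ h := by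
  intro F hF hdis
  obtain ⟨H, ε, hε, hH0, hfam, hH⟩ := pert hact hyO hcoc F hm hdis hc
  apply closable_of_limit
  intro U hU hFU
  obtain ⟨s', hs'⟩ : ∃ s' : ℕ → V 1, ∀ i, s' i = EuclideanSpace.single (0 : Fin 1) (s i) :=
    ⟨_, fun _ => rfl⟩
  have hs'0 : Tendsto s' atTop (𝓝 0) := by
    rw [tendsto_zero_iff_norm_tendsto_zero]
    have h1 : (fun i => ‖s' i‖) = fun i => ‖s i‖ := by
      funext i
      rw [hs', PiLp.norm_single]
    rw [h1]
    have h2 := hs.norm
    rwa [norm_zero] at h2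
  have hcv : Cv (fun i => H (s' i)) F := by
    have h1 := Cv.fam Pool.Agent.W917.SC.comp hfam hs'0
    rwa [hH0] at h1
  have hev : ∀ᶠ i in atTop, ‖s' i‖ < ε := by
    have h1 := hs'0.norm
    rw [norm_zero] at h1
    exact h1.eventually (gt_mem_nhds hε)
  obtain ⟨i, hi, hiU⟩ := (hev.and (hcv.mem hU hFU)).exists
  refine ⟨_, hiU, subset_closure ?_⟩
  refine hP i (H (s' i)) ?_ ?_
  · intro a
    rw [((hH (s' i) hi a).2 _ (hF a)), hs', PiLp.single_apply, if_pos rfl, mul_assoc]
  · intro i' h1 h2 g g'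
    rw [(hH (s' i) hi g).1 i' h2]
    exact hdis i' h1 h2 _ _

/-- The closing property on a periodic nilmanifold with affine return map. -/
theorem pp_all {O : Set N} {act : G → N → N} (hact : IsNilAction n N ι O act) {y : N}
    (hyO : y ∈ O) (hy : IsNilPt ι act y) {m : ℕ} (hm : 1 ≤ m) (φ : G →* G) (h : G) :
    PP n r act y m φ h := by
  -- the stabiliser and the conjugate representation
  let Γ : Subgroup G :=
    { carrier := {g | act g y = y}
      mul_mem' := fun {a b} ha hb => by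
        show act (a * b) y = y
        rw [hact.mul _ _ y hyO, show act b y = y from hb, show act a y = y from ha]
      one_mem' := hact.one y hyO
      inv_mem' := fun {a} ha => by
        show act a⁻¹ y = y
        have h1 : act a⁻¹ (act a y) = y := by
          rw [← hact.mul _ _ y hyO, inv_mul_cancel, hact.one y hyO]
        rwa [show act a y = y from ha] at h1 }
  obtain ⟨u, ⟨D, hD, hden⟩, ⟨q, hq, hcong⟩⟩ := hy.arith
  let ι' : G →* Md d :=
    { toFun := fun g => ι (u⁻¹ * g * u)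
      map_one' := by rw [mul_one, inv_mul_cancel, map_one]
      map_mul' := fun a b => by
        rw [← map_mul]
        congr 1
        group }
  have hU : ∀ g, Uni (ι' g) := fun g => hact.uni _
  have hΓ : IsArith ι' Γ := ⟨⟨D, hD, fun g hg => hden g hg⟩, ⟨q, hq, fun g hg => hcong g hg⟩⟩
  have hst : ∀ g g', act g y = act g' y ↔ g⁻¹ * g' ∈ Γ := by
    intro g g'
    constructor
    · intro e
      show act (g⁻¹ * g') y = y
      rw [hact.mul _ _ y hyO, ← e, ← hact.mul _ _ y hyO, inv_mul_cancel, hact.one y hyO]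
    · intro e
      have e' : act (g⁻¹ * g') y = y := e
      have h1 : act g' y = act (g * (g⁻¹ * g')) y := by rw [mul_inv_cancel_left]
      rw [h1, hact.mul _ _ y hyO, e']
  -- conjugates of one parameter subgroups
  have hconj : ∀ (w : G) {c : ℝ → G}, IsOne ι c → IsOne ι (fun t => w * c t * w⁻¹) := by
    intro w c hc
    refine ⟨fun a b => ?_, fun s t => ?_⟩
    · have e : (fun t => ι (w * c t * w⁻¹) a b) =
          fun t => ∑ j, (∑ i, ι w a i * ι (c t) i j) * ι w⁻¹ j b := by
        funext t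
        rw [map_mul, map_mul, Matrix.mul_apply]
        refine Finset.sum_congr rfl fun j _ => ?_
        rw [Matrix.mul_apply]
      rw [e]
      refine ContDiff.sum fun j _ => ?_
      refine ContDiff.mul ?_ contDiff_const
      exact ContDiff.sum fun i _ => contDiff_const.mul (hc.smooth i j)
    · show w * c (s + t) * w⁻¹ = w * c s * w⁻¹ * (w * c t * w⁻¹)
      rw [hc.add]
      group
  -- the rational case
  have hrat : ∀ w : G, IsRat ι' w → PP n r act y m φ w := by
    intro w hw F hF _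
    obtain ⟨k, hk, hky⟩ := periodic_of_rat hU hΓ (F^[m]) (F.injective.iterate m)
      (fun g => act g y) hst φ w hF hw
    intro U hU hFU
    refine ⟨F, hFU, m * k, Nat.mul_pos hm hk, ?_⟩
    rw [hact.one y hyO] at hky
    rw [Function.iterate_mul]
    exact hky
  -- products
  have hprod : ∀ l : List G, (∀ g ∈ l, ∃ c : ℝ → G, IsOne ι c ∧ c 1 ∈ Γ ∧ ∃ t, c t = g) →
      ∀ w : G, IsRat ι' w → PP n r act y m φ (w * l.prod) := by
    intro l
    induction l with
    | nil =>
      intro _ w hw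
      rw [List.prod_nil, mul_one]
      exact hrat w hw
    | cons g l ih =>
      intro hl w hw
      obtain ⟨c, hc, hc1, t, ht⟩ := hl g (List.mem_cons_self ..)
      have ih' := ih fun g hg => hl g (List.mem_cons_of_mem _ hg)
      -- rational approximations
      have hq : ∀ i : ℕ, ∃ x : ℚ, |(x : ℝ) - t| < 1 / ((i : ℝ) + 1) := by
        intro i
        have h1 : (0 : ℝ) < 1 / ((i : ℝ) + 1) := by positivity
        obtain ⟨x, hx1, hx2⟩ := exists_rat_btwn (show t < t + 1 / ((i : ℝ) + 1) by linarith)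
        refine ⟨x, ?_⟩
        rw [abs_lt]
        constructor <;> linarith
      choose x hx using hq
      have hs : Tendsto (fun i : ℕ => (x i : ℝ) - t) atTop (𝓝 0) := by
        rw [tendsto_zero_iff_abs_tendsto_zero]
        exact squeeze_zero (fun i => abs_nonneg _) (fun i => (hx i).le)
          tendsto_one_div_add_atTop_nhds_zero_nat
      refine pp_limit hact hyO hy.cocompact hm (hconj w hc) (fun i => (x i : ℝ) - t) hs fun i => ?_
      have e : w * c ((x i : ℝ) - t) * w⁻¹ * (w * (g :: l).prod) = w * c (x i) * l.prod := by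
        rw [List.prod_cons, ← ht]
        have h1 : c (x i : ℝ) = c ((x i : ℝ) - t) * c t := by
          rw [← hc.add, sub_add_cancel]
        rw [h1]
        group
      show PP n r act y m φ (w * c ((x i : ℝ) - t) * w⁻¹ * (w * (g :: l).prod))
      rw [e]
      exact ih' _ (hw.mul (rat_one hU hΓ hc.add hc1 (x i)))
  -- `h` is a product
  have hh : h ∈ Subgroup.closure {g | ∃ c : ℝ → G, IsOne ι c ∧ act (c 1) y = y ∧ ∃ t, c t = g} := by
    rw [hy.gen]
    exact Subgroup.mem_top h
  rw [← Subgroup.mem_toSubmonoid, Subgroup.closure_toSubmonoid] at hh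
  obtain ⟨l, hl, hlh⟩ := Submonoid.exists_list_of_mem_closure hh
  rw [← hlh, ← one_mul l.prod]
  refine hprod l (fun g hg => ?_) 1 IsRat.one
  rcases hl g hg with ⟨c, hc, hc1, t, ht⟩ | ⟨c, hc, hc1, t, ht⟩
  · exact ⟨c, hc, hc1, t, ht⟩
  · refine ⟨c, hc, hc1, -t, ?_⟩
    have h1 : c (-t) * c t = 1 := by rw [← hc.add, neg_add_cancel, one_zero hc.add]
    rw [ht] at h1
    exact (eq_inv_of_mul_eq_one_left h1).trans (inv_inv g)

/-- Closing on periodic nilmanifolds. -/
theorem closable_of_nilPer (F : DiffM n N r) (y : N) (h : IsNilPer n N F y) :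
    ClosableAt n N r F y := by
  obtain ⟨G, iG, iT, iTG, d, ι, O, act, hact, hyO, hy, m, hm, ⟨h, φ, hF⟩, hdis⟩ := h
  exact pp_all hact hyO hy hm φ h F hF hdis

/-- Closing at limits of periodic nilmanifolds. -/
theorem main (F : DiffM n N r) (z : N)
    (h : ∀ U : Set (DiffM n N r), IsOpen[strongTop n N r] U → F ∈ U →
      ∃ F' ∈ U, z ∈ closure {y | IsNilPer n N F' y}) : ClosableAt n N r F z := by
  refine closable_of_limit F z fun U hU hFU => ?_
  obtain ⟨F', hF', hz⟩ := h U hU hFU
  exact ⟨F', hF', closure_mono (fun y hy => closable_of_nilPer F' y hy) hz⟩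

end Pool.Agent.R189.NC
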