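import Pool.Agent.R189.NC.Cor

/-!
# The case of torus actions
-/

set_option autoImplicit false
set_option linter.unusedSectionVars false

open scoped Manifold ContDiff Topology
open Filter Set Metric

universe u

namespace Pool.Agent.R189.NC

open Pool.Agent.H718R2.G Pool.Agent.W564.SC Pool.Agent.TH382.QC

/-- the vector `(a, 0)` -/
noncomputable def uv {e : ℕ} (a : V e) : Fin (e + 1) → ℝ :=
  Fin.snoc (α := fun _ => ℝ) (fun i => a i) 0

theorem uv_last {e : ℕ} (a : V e) : uv a (Fin.last e) = 0 := Fin.snoc_last (α := fun _ => ℝ) ..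

theorem uv_castSucc {e : ℕ} (a : V e) (i : Fin e) : uv a i.castSucc = a i :=
  Fin.snoc_castSucc (α := fun _ => ℝ) ..

theorem uv_add {e : ℕ} (a b : V e) (i : Fin (e + 1)) : uv (a + b) i = uv a i + uv b i := by
  refine Fin.lastCases ?_ (fun i => ?_) i
  · rw [uv_last, uv_last, uv_last, add_zero]
  · rw [uv_castSucc, uv_castSucc, uv_castSucc]
    rfl

/-- the matrix with the last column `(a, 0)` -/
noncomputable def Xm {e : ℕ} (a : V e) : Md (e + 1) :=
  Matrix.of fun i j => if j = Fin.last e then uv a i else 0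

theorem Xm_apply {e : ℕ} (a : V e) (i j : Fin (e + 1)) :
    Xm a i j = if j = Fin.last e then uv a i else 0 := rfl

theorem Xm_mul {e : ℕ} (a b : V e) : Xm a * Xm b = 0 := by
  ext i j
  rw [Matrix.mul_apply, Matrix.zero_apply]
  refine Finset.sum_eq_zero fun k _ => ?_
  rw [Xm_apply, Xm_apply]
  by_cases hk : k = Fin.last e
  · rw [hk, uv_last]
    simp
  · rw [if_neg hk, zero_mul]

theorem Xm_add {e : ℕ} (a b : V e) : Xm (a + b) = Xm a + Xm b := by
  ext i j
  rw [Matrix.add_apply, Xm_apply, Xm_apply, Xm_apply, uv_add]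
  by_cases hj : j = Fin.last e
  · rw [if_pos hj, if_pos hj, if_pos hj]
  · rw [if_neg hj, if_neg hj, if_neg hj, add_zero]

theorem Xm_zero {e : ℕ} : Xm (0 : V e) = 0 := by
  have h := Xm_add (0 : V e) 0
  rw [add_zero] at h
  exact left_eq_add.1 h

/-- the representation of `ℝᵉ` by unipotent matrices -/
noncomputable def tau (e : ℕ) : Multiplicative (V e) →* Md (e + 1) where
  toFun a := 1 + Xm a.toAdd
  map_one' := by
    show 1 + Xm (0 : V e) = 1
    rw [Xm_zero, add_zero]
  map_mul' a b := by
    show 1 + Xm (a.toAdd + b.toAdd) = (1 + Xm a.toAdd) * (1 + Xm b.toAdd)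
    rw [Xm_add, mul_add, mul_one, add_mul, one_mul, Xm_mul, add_zero]
    abel

theorem tau_apply {e : ℕ} (a : Multiplicative (V e)) (i j : Fin (e + 1)) :
    tau e a i j = (1 : Md (e + 1)) i j + if j = Fin.last e then uv a.toAdd i else 0 := rfl

theorem tau_entry {e : ℕ} (a : Multiplicative (V e)) (i : Fin e) :
    tau e a i.castSucc (Fin.last e) = a.toAdd i := by
  rw [tau_apply, if_pos rfl, uv_castSucc, Matrix.one_apply_ne (Fin.castSucc_lt_last i).ne, zero_add]

theorem tau_uni {e : ℕ} (a : Multiplicative (V e)) : Uni (tau e a) := by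
  intro i j hji
  rw [tau_apply, Matrix.one_apply]
  by_cases hj : j = Fin.last e
  · have hi : i = Fin.last e := le_antisymm (Fin.le_last i) (hj ▸ hji)
    rw [if_pos hj, hi, uv_last, add_zero]
  · rw [if_neg hj, add_zero]

theorem uv_smooth {e : ℕ} {E : Type*} [NormedAddCommGroup E] [NormedSpace ℝ E] {f : E → V e}
    (hf : ∀ i, ContDiff ℝ ∞ fun s => f s i) (i : Fin (e + 1)) : ContDiff ℝ ∞ fun s => uv (f s) i := by
  refine Fin.lastCases ?_ (fun i => ?_) i
  · simp only [uv_last]
    exact contDiff_const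
  · simp only [uv_castSucc]
    exact hf i

theorem tau_smooth {e : ℕ} {E : Type*} [NormedAddCommGroup E] [NormedSpace ℝ E]
    {f : E → Multiplicative (V e)} (hf : ∀ i, ContDiff ℝ ∞ fun s => (f s).toAdd i)
    (i j : Fin (e + 1)) : ContDiff ℝ ∞ fun s => tau e (f s) i j := by
  simp only [tau_apply]
  refine contDiff_const.add ?_
  by_cases hj : j = Fin.last e
  · simp only [if_pos hj]
    exact uv_smooth hf i
  · simp only [if_neg hj]
    exact contDiff_const

variable {n : ℕ} {N : Type u} [TopologicalSpace N] [ChartedSpace (V n) N] {e : ℕ}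
  {R : V e → N → N}

theorem torus_nilAction (hR : IsTorusAct e n N R) :
    IsNilAction n N (tau e) univ (fun (g : Multiplicative (V e)) y => R g.toAdd y) where
  rep_cont := by
    have h1 : Continuous fun a : V e => tau e (Multiplicative.ofAdd a) := by
      refine continuous_matrix fun i j => ?_
      exact (tau_smooth (f := fun a : V e => Multiplicative.ofAdd a) (fun i => by
        exact (EuclideanSpace.proj (𝕜 := ℝ) i).contDiff) i j).continuous
    exact h1
  rep_inj := by
    intro a b hab
    apply Multiplicative.toAdd.injective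
    ext i
    rw [← tau_entry a i, ← tau_entry b i, hab]
  uni := tau_uni
  isOpen := isOpen_univ
  maps := fun _ _ _ => mem_univ _
  one := fun y _ => hR.zero y
  mul := fun g h y _ => hR.add _ _ y
  cont := by
    have h1 : Continuous (fun q : V e × N => R q.1 q.2) := hR.smooth.continuous
    exact h1.continuousOn
  smooth := by
    intro j c hc
    have h1 : ContDiff ℝ ∞ (fun s : V j => (c s).toAdd) := by
      rw [contDiff_euclidean]
      intro i
      have h2 := hc i.castSucc (Fin.last e)
      simp only [tau_entry] at h2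
      exact h2
    have h2 : ContMDiff ((𝓡 j).prod (𝓡 n)) ((𝓡 e).prod (𝓡 n)) ∞
        (fun p : V j × N => (((c p.1).toAdd, p.2) : V e × N)) :=
      (h1.contMDiff.comp contMDiff_fst).prodMk contMDiff_snd
    exact (hR.smooth.comp h2).contMDiffOn

theorem torus_nilPt (hR : IsTorusAct e n N R) {z : N}
    (hz : ∀ a : V e, R a z = z → ∀ j, ∃ m : ℤ, a j = (m : ℝ)) :
    IsNilPt (tau e) (fun (g : Multiplicative (V e)) y => R g.toAdd y) z where
  gen := by
    rw [Subgroup.eq_top_iff']
    intro g
    have hg : g = ∏ i : Fin e, Multiplicative.ofAdd (EuclideanSpace.single i (g.toAdd i)) := by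
      apply Multiplicative.toAdd.injective
      rw [toAdd_prod]
      simp only [toAdd_ofAdd]
      ext j
      rw [WithLp.ofLp_sum, Finset.sum_apply, Finset.sum_eq_single j]
      · rw [PiLp.single_apply, if_pos rfl]
      · intro i _ hij
        rw [PiLp.single_apply, if_neg hij.symm]
      · intro h
        exact absurd (Finset.mem_univ j) h
    rw [hg]
    refine Subgroup.prod_mem _ fun i _ => Subgroup.subset_closure ?_
    refine ⟨fun t => Multiplicative.ofAdd (EuclideanSpace.single i t), ⟨fun a b => ?_, fun s t => ?_⟩,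
      ?_, _, rfl⟩
    · refine tau_smooth (f := fun t : ℝ => Multiplicative.ofAdd (EuclideanSpace.single i t))
        (fun j => ?_) a b
      simp only [toAdd_ofAdd, PiLp.single_apply]
      by_cases hj : j = i
      · simp only [if_pos hj]
        exact contDiff_id
      · simp only [if_neg hj]
        exact contDiff_const
    · show Multiplicative.ofAdd (EuclideanSpace.single i (s + t)) =
        Multiplicative.ofAdd (EuclideanSpace.single i s + EuclideanSpace.single i t)
      congr 1
      ext j
      rw [PiLp.add_apply, PiLp.single_apply, PiLp.single_apply, PiLp.single_apply]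
      by_cases hj : j = i
      · rw [if_pos hj, if_pos hj, if_pos hj]
      · rw [if_neg hj, if_neg hj, if_neg hj, add_zero]
    · refine hR.int _ (fun j => ?_) z
      rw [toAdd_ofAdd, PiLp.single_apply]
      by_cases hj : j = i
      · exact ⟨1, by rw [if_pos hj]; norm_num⟩
      · exact ⟨0, by rw [if_neg hj]; norm_num⟩
  arith := by
    refine ⟨1, ⟨1, le_rfl, fun g hg a b => ?_⟩, ⟨1, le_rfl, fun g hg => ?_⟩⟩
    · have hg' : R g.toAdd z = z := hg
      have h1 := hz _ hg'
      rw [inv_one, one_mul, mul_one, tau_apply]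
      have h2 : ∀ i, ∃ z : ℤ, uv g.toAdd i = z := by
        intro i
        refine Fin.lastCases ?_ (fun i => ?_) i
        · exact ⟨0, by rw [uv_last]; norm_num⟩
        · rw [uv_castSucc]
          exact h1 i
      obtain ⟨w, hw⟩ := h2 a
      refine ⟨(if a = b then 1 else 0) + if b = Fin.last e then w else 0, ?_⟩
      rw [Matrix.one_apply, hw]
      push_cast
      rw [one_mul]
    · show R g.toAdd z = z
      refine hR.int _ (fun j => ?_) z
      obtain ⟨w, hw⟩ := hg j.castSucc (Fin.last e)
      rw [inv_one, one_mul, mul_one, tau_entry,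
        Matrix.one_apply_ne (Fin.castSucc_lt_last j).ne, sub_zero] at hw
      exact ⟨w, by rw [hw]; push_cast; ring⟩
  cocompact := by
    have hK : IsCompact ((fun a : Fin e → ℝ => (WithLp.toLp 2 a : V e)) ''
        (Set.univ.pi fun _ : Fin e => Set.Icc (0 : ℝ) 1)) :=
      (isCompact_univ_pi fun _ => isCompact_Icc).image (PiLp.continuous_toLp 2 (fun _ : Fin e => ℝ))
    refine ⟨Multiplicative.toAdd ⁻¹' ((fun a : Fin e → ℝ => (WithLp.toLp 2 a : V e)) ''
        (Set.univ.pi fun _ : Fin e => Set.Icc (0 : ℝ) 1)), hK, fun g => ?_⟩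
    refine ⟨Multiplicative.ofAdd (WithLp.toLp 2 fun i => Int.fract (g.toAdd i)), ?_, ?_⟩
    · exact ⟨_, fun i _ => ⟨Int.fract_nonneg _, (Int.fract_lt_one _).le⟩, rfl⟩
    · show R g.toAdd z = R (WithLp.toLp 2 fun i => Int.fract (g.toAdd i)) z
      have e1 : g.toAdd = (WithLp.toLp 2 fun i => Int.fract (g.toAdd i)) +
          (WithLp.toLp 2 fun i => (⌊g.toAdd i⌋ : ℝ)) := by
        ext i
        rw [PiLp.add_apply]
        exact (Int.fract_add_floor _).symm
      have e2 : R g.toAdd z = R ((WithLp.toLp 2 fun i => Int.fract (g.toAdd i)) +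
          (WithLp.toLp 2 fun i => (⌊g.toAdd i⌋ : ℝ))) z := by rw [← e1]
      rw [e2, hR.add, hR.int _ (fun j => ⟨⌊g.toAdd j⌋, rfl⟩) z]

/-- Maps which act on the orbits of a torus action by affine maps. -/
theorem toral [T2Space N] [CompactSpace N] [IsManifold (𝓡 n) ∞ N] {r : ℕ∞}
    (hR : IsTorusAct e n N R) (L : V e →+ V e) (F : DiffM n N r)
    (hF : ∀ a y, F (R a y) = R (L a) (F y)) (z : N)
    (hz : ∀ a : V e, R a z = z → ∀ j, ∃ m : ℤ, a j = (m : ℝ))
    (hc : ∀ U : Set (DiffM n N r), IsOpen[strongTop n N r] U → F ∈ U →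
      ∃ H ∈ U, (∀ a y, H (R a y) = R (L a) (H y)) ∧ ∃ q : ℕ, 1 ≤ q ∧ ∃ a, H^[q] z = R a z) :
    ClosableAt n N r F z := by
  refine extension (torus_nilAction hR) (A := fun _ => 1) (φ := AddMonoidHom.toMultiplicative L) F F
    ⟨fun _ _ => rfl, fun g y => hF g.toAdd y, fun y => (hR.zero _).symm⟩ z (torus_nilPt hR hz) ?_
  intro U hU hFU
  obtain ⟨H, hHU, hH, q, hq, a, ha⟩ := hc U hU hFU
  exact ⟨H, hHU, fun g y => hH g.toAdd y, q, hq, Multiplicative.ofAdd a, ha⟩

end Pool.Agent.R189.NC
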